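import Pool.Agent.helper60.EPT.Spec

set_option autoImplicit false

namespace Pool.Agent.EPT

open D

theorem DDS_aux (l : List D) : ∀ acc : List D, acc.Nodup →
    (l.foldl (fun acc a => if a ∈ acc then acc else a :: acc) acc).Nodup ∧
      ∀ a, a ∈ l.foldl (fun acc a => if a ∈ acc then acc else a :: acc) acc ↔ a ∈ acc ∨ a ∈ l := by
  induction l with
  | nil => intro acc h; exact ⟨h, fun a => by simp⟩
  | cons b l ih =>
    intro acc h
    rw [List.foldl_cons]
    by_cases hb : b ∈ acc
    · rw [if_pos hb]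
      obtain ⟨h1, h2⟩ := ih acc h
      refine ⟨h1, fun a => ?_⟩
      rw [h2 a, List.mem_cons]
      constructor
      · rintro (h3 | h3)
        · exact Or.inl h3
        · exact Or.inr (Or.inr h3)
      · rintro (h3 | h3 | h3)
        · exact Or.inl h3
        · exact Or.inl (h3 ▸ hb)
        · exact Or.inr h3
    · rw [if_neg hb]
      obtain ⟨h1, h2⟩ := ih (b :: acc) (List.nodup_cons.mpr ⟨hb, h⟩)
      refine ⟨h1, fun a => ?_⟩
      rw [h2 a, List.mem_cons, List.mem_cons]
      tauto

theorem DDS : DDS_stmt := by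
  intro l
  obtain ⟨h1, h2⟩ := DDS_aux l [] List.nodup_nil
  refine ⟨h1, fun a => ?_⟩
  unfold dd
  rw [h2 a]
  simp

end Pool.Agent.EPT
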