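import Pool.Agent.helper60.EPT.Spec

set_option autoImplicit false

namespace Pool.Agent.EPT

open D

theorem RBA_const (a : D) : ∃ (p : Prog) (C : ℕ), ∀ x : D, ∃ t, t ≤ C * x.size ∧ Run p x a t := by
  induction a with
  | nil => exact ⟨.emp, 1, fun x => ⟨x.size, by omega, Run.emp x⟩⟩
  | cons a b iha ihb =>
    obtain ⟨p, C1, hp⟩ := iha
    obtain ⟨q, C2, hq⟩ := ihb
    refine ⟨.pair p q, C1 + C2 + 1, fun x => ?_⟩
    obtain ⟨s, hs, hs'⟩ := hp x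
    obtain ⟨t, ht, ht'⟩ := hq x
    refine ⟨s + t + x.size, ?_, Run.pair p q x a b s t hs' ht'⟩
    have e : (C1 + C2 + 1) * x.size = C1 * x.size + C2 * x.size + x.size := by ring
    rw [e]
    omega

theorem RBA (hPBC : PBC_stmt) : RBA_stmt := by
  obtain ⟨h1, _, h3, _, _, _⟩ := hPBC
  refine ⟨fun S hS => ⟨?_, fun a => ?_⟩, ?_, ?_, ?_⟩
  · obtain ⟨c, hc⟩ := hS
    exact ⟨.idt, c, fun x => ⟨x.size, hc x, Run.idt x⟩⟩
  · obtain ⟨p, C, hp⟩ := RBA_const a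
    obtain ⟨c, hc⟩ := (h3 S (fun _ => C) size (h1 S C) hS).2
    refine ⟨p, c, fun x => ?_⟩
    obtain ⟨t, ht, ht'⟩ := hp x
    exact ⟨t, ht.trans (hc x), ht'⟩
  · exact ⟨.hd, 1, fun x => ⟨x.size, by rw [pow_one]; omega, Run.hd x⟩⟩
  · exact ⟨.tl, 1, fun x => ⟨x.size, by rw [pow_one]; omega, Run.tl x⟩⟩
  · refine ⟨.eqt, 2, fun x => ⟨x.size + 2, Nat.le_self_pow (by norm_num) _, ?_⟩⟩
    exact Run.eqt x

end Pool.Agent.EPT
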