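import Pool.Agent.helper60.EPT.Spec

set_option autoImplicit false

namespace Pool.Agent.EPT

open D

/-- one step -/
def ZPF_f (u : D) : D :=
  if u.fst.fst = nil then u.fst else
    cons u.fst.fst.snd (cons (cons u.snd.fst u.fst.fst.fst) u.fst.snd)

theorem ZPF_fold (e : D) (L : List D) : ∀ (M : List D) (r : D),
    L.foldl (fun acc h => ZPF_f (cons acc (cons h e))) (cons (ofList M) r) =
      cons (ofList (M.drop L.length)) (ofList ((List.zipWith cons L M).reverse ++ r.toList)) := by
  induction L with
  | nil => intro M r; simp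
  | cons h L ih =>
    intro M r
    cases M with
    | nil =>
      have e1 : ZPF_f (cons (cons (ofList []) r) (cons h e)) = cons (ofList []) r := by
        simp [ZPF_f]
      rw [List.foldl_cons, e1, ih [] r]
      simp
    | cons m M =>
      have e1 : ZPF_f (cons (cons (ofList (m :: M)) r) (cons h e)) =
          cons (ofList M) (cons (cons h m) r) := by
        simp [ZPF_f]
      rw [List.foldl_cons, e1, ih M _]
      simp

theorem ZPF_size (e : D) (L : List D) : ∀ s : D,
    (L.foldl (fun acc h => ZPF_f (cons acc (cons h e))) s).size ≤ s.size + (L.map fun h => h.size + 1).sum := by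
  induction L with
  | nil => intro s; simp
  | cons h L ih =>
    intro s
    rw [List.foldl_cons, List.map_cons, List.sum_cons]
    refine (ih _).trans ?_
    have h1 : (ZPF_f (cons s (cons h e))).size ≤ s.size + (h.size + 1) := by
      unfold ZPF_f
      simp only [fst_cons, snd_cons]
      cases s with
      | nil => simp
      | cons u v =>
        cases u with
        | nil => simp
        | cons u1 u2 => simp; omega
    omega

theorem ZPF_sum (x : D) : (x.toList.map fun h => h.size + 1).sum ≤ x.size := by
  induction x with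
  | nil => simp
  | cons a b _ ih =>
    simp only [toList_cons, List.map_cons, List.sum_cons, size_cons]
    omega

theorem ZPF (hC : Cal) (hREV : REV_stmt) : ZPF_stmt := by
  intro a b ha hb
  have hf : FP ZPF_f := by
    have i1 : FP fun x => x := hC.id
    have i2 : FP fun x : D => x.fst := hC.fst _ i1
    have i3 : FP fun x : D => x.fst.fst := hC.fst _ i2
    exact hC.cond _ _ _ i3
      (hC.cons _ _ (hC.snd _ i3) (hC.cons _ _ (hC.cons _ _ (hC.fst _ (hC.snd _ i1)) (hC.fst _ i3)) (hC.snd _ i2))) i2
  have hfold := hC.fold ZPF_f a (fun _ => nil) (fun x => cons (b x) nil) hf ha (hC.const nil)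
    (hC.cons _ _ hb (hC.const nil)) (by
      obtain ⟨c1, h1⟩ := hC.bound a ha
      obtain ⟨c2, h2⟩ := hC.bound b hb
      refine ⟨c1 + c2 + 5, fun x L hL => ?_⟩
      refine (ZPF_size _ L _).trans ?_
      obtain ⟨t, ht⟩ := hL
      have h3 : (L.map fun h => h.size + 1).sum ≤ (a x).size := by
        have h4 := ZPF_sum (a x)
        rw [← ht, List.map_append, List.sum_append] at h4
        omega
      simp only [size_cons, size_nil]
      have h5 := h1 x
      have h6 := h2 x
      set N := x.size + (c1 + c2 + 5) with hN
      have hN1 : 1 ≤ N := by omega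
      have h7 : (x.size + c1) ^ c1 ≤ N ^ (c1 + c2) :=
        (Nat.pow_le_pow_left (by omega) c1).trans (Nat.pow_le_pow_right hN1 (by omega))
      have h8 : (x.size + c2) ^ c2 ≤ N ^ (c1 + c2) :=
        (Nat.pow_le_pow_left (by omega) c2).trans (Nat.pow_le_pow_right hN1 (by omega))
      have h9 : 1 ≤ N ^ (c1 + c2) := Nat.one_le_pow _ _ hN1
      have h10 : N ^ (c1 + c2) * 5 ≤ N ^ (c1 + c2 + 5) := by
        calc N ^ (c1 + c2) * 5 ≤ N ^ (c1 + c2) * N := Nat.mul_le_mul_left _ (by omega)
          _ = N ^ (c1 + c2 + 1) := (pow_succ _ _).symm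
          _ ≤ N ^ (c1 + c2 + 5) := Nat.pow_le_pow_right hN1 (by omega)
      omega)
  have hres : (fun x => zp (a x) (b x)) = fun x =>
      ofList (((a x).toList.foldl (fun acc h => ZPF_f (cons acc (cons h nil))) (cons (b x) nil)).snd.toList.reverse) := by
    funext x
    have h1 := ZPF_fold nil (a x).toList (b x).toList nil
    rw [ofList_toList] at h1
    rw [h1]
    simp [zp]
  rw [hres]
  exact hC.comp (fun x => ofList x.toList.reverse) _ hREV.1 (hC.snd _ hfold)

end Pool.Agent.EPT
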